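import Pool.Agent.H66.ZK.Stm
import Pool.Graph.R_seed8.Y720.MZ.Sep

/-! Part SMC of the project ZK (helper66): if the discriminant of the quartic form vanishes then the
plane cubic is singular. -/

set_option autoImplicit false

open Pool.Agent.Y720.MZ Pool.Agent.Q35.TT Pool.Agent.Q149.TT Pool.Agent.Q35.ZC Pool.Agent.H66.TK
  Pool.Agent.H66.ZK

namespace Pool.Agent.H26.ZK

/-- A binary quartic form with discriminant zero has a singular zero. -/
theorem sing_quartic {E : Type} [Field E] [IsAlgClosed E] [CharZero E] (a : Fin 5 → E)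
    (hd : dc (a 0) (a 1) (a 2) (a 3) (a 4) = 0) :
    ∃ u v : E, (u ≠ 0 ∨ v ≠ 0) ∧
      4 * a 4 * u ^ 3 + 3 * a 3 * u ^ 2 * v + 2 * a 2 * u * v ^ 2 + a 1 * v ^ 3 = 0 ∧
      a 3 * u ^ 3 + 2 * a 2 * u ^ 2 * v + 3 * a 1 * u * v ^ 2 + 4 * a 0 * v ^ 3 = 0 := by
  by_cases h43 : a 4 = 0 ∧ a 3 = 0
  · refine ⟨1, 0, Or.inl one_ne_zero, ?_, ?_⟩
    · rw [h43.1, h43.2]; ring
    · rw [h43.2]; ring
  · have hcf := qpol_coeff (a 0) (a 1) (a 2) (a 3) (a 4)
    have hdeg : 3 ≤ (qpol (a 0) (a 1) (a 2) (a 3) (a 4)).natDegree := by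
      by_cases h4 : a 4 = 0
      · have h3 : a 3 ≠ 0 := fun h3 => h43 ⟨h4, h3⟩
        exact Polynomial.le_natDegree_of_ne_zero (by rw [hcf.2.2.2.1]; exact h3)
      · have : 4 ≤ (qpol (a 0) (a 1) (a 2) (a 3) (a 4)).natDegree :=
          Polynomial.le_natDegree_of_ne_zero (by rw [hcf.2.2.2.2]; exact h4)
        omega
    have hns : ¬ (qpol (a 0) (a 1) (a 2) (a 3) (a 4)).Separable := fun h => dc_ne_zero h hdeg hd
    set P := qpol (a 0) (a 1) (a 2) (a 3) (a 4) with hP
    have hroot : ∃ r : E, P.eval r = 0 ∧ P.derivative.eval r = 0 := by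
      classical
      by_contra hno
      push Not at hno
      apply hns
      rw [Polynomial.Separable]
      by_contra hnc
      have hP0 : P ≠ 0 := by
        intro h
        rw [h, Polynomial.natDegree_zero] at hdeg
        omega
      obtain ⟨r, hr⟩ := IsAlgClosed.exists_root (EuclideanDomain.gcd P P.derivative) (by
        intro hdg
        apply hnc
        rw [← EuclideanDomain.gcd_isUnit_iff]
        exact Polynomial.isUnit_iff_degree_eq_zero.mpr hdg)
      have h1 : P.eval r = 0 := by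
        obtain ⟨q, hq⟩ := EuclideanDomain.gcd_dvd_left P P.derivative
        rw [hq, Polynomial.eval_mul]
        rw [Polynomial.IsRoot] at hr
        rw [hr, zero_mul]
      have h2 : P.derivative.eval r = 0 := by
        obtain ⟨q, hq⟩ := EuclideanDomain.gcd_dvd_right P P.derivative
        rw [hq, Polynomial.eval_mul]
        rw [Polynomial.IsRoot] at hr
        rw [hr, zero_mul]
      exact hno r h1 h2
    obtain ⟨r, h1, h2⟩ := hroot
    rw [hP] at h1 h2
    simp only [qpol, Polynomial.eval_add, Polynomial.eval_mul, Polynomial.eval_C, Polynomial.eval_X,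
      Polynomial.eval_pow, Polynomial.derivative_add, Polynomial.derivative_mul,
      Polynomial.derivative_C, Polynomial.derivative_X, Polynomial.derivative_X_pow,
      Polynomial.eval_zero, Polynomial.eval_one] at h1 h2
    push_cast at h2
    refine ⟨r, 1, Or.inr one_ne_zero, ?_, ?_⟩
    · linear_combination h2
    · linear_combination 4 * h1 - r * h2

theorem sing_cubic {E : Type} [Field E] [IsAlgClosed E] [CharZero E] (α : Fin 3 → E)
    (β : Fin 4 → E) (w t : E) (hc : cub α β w ![1, t] = 0) (hw : cw α w ![1, t] ≠ 0)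
    (hd : dF (gq α β w ![1, t]) = 0)
    (hl : ∀ l m : E, ∃ x : Fin 2 → E, cub α β (l * x 0 + m * x 1) x ≠ 0) :
    ∃ (w' : E) (x : Fin 2 → E), x ≠ 0 ∧ cub α β w' x = 0 ∧ cw α w' x = 0 ∧ c0 α β w' x = 0 ∧
      c1 α β w' x = 0 := by
  obtain ⟨u, v, huv, hu, hv⟩ := sing_quartic (gq α β w ![1, t]) hd
  -- the linear, quadratic and cubic parts
  have hF : w ^ 3 + (α 0 + α 1 * t + α 2 * t ^ 2) * w + (β 0 + β 1 * t + β 2 * t ^ 2 + β 3 * t ^ 3)
      = 0 := by
    have := hc
    simp only [cub, q2, q3, Matrix.cons_val_zero, Matrix.cons_val_one] at this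
    linear_combination this
  have eW : cw α w ![1, t] = 3 * w ^ 2 + (α 0 + α 1 * t + α 2 * t ^ 2) := by
    simp only [cw, q2, Matrix.cons_val_zero, Matrix.cons_val_one]; ring
  have eT : c1 α β w ![1, t] = (α 1 + 2 * α 2 * t) * w + (β 1 + 2 * β 2 * t + 3 * β 3 * t ^ 2) := by
    simp only [c1, Matrix.cons_val_zero, Matrix.cons_val_one]; ring
  have g0 : gq α β w ![1, t] 0 = (α 2 * w + β 2 + 3 * β 3 * t) ^ 2 - 4 * (c1 α β w ![1, t] * β 3) := by
    simp only [gq, Matrix.cons_val_zero, Matrix.cons_val_one]; ring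
  have g1 : gq α β w ![1, t] 1 = 2 * (α 1 + 2 * α 2 * t) * (α 2 * w + β 2 + 3 * β 3 * t) -
      4 * (cw α w ![1, t] * β 3 + c1 α β w ![1, t] * α 2) := by
    simp only [gq, Matrix.cons_val_zero, Matrix.cons_val_one]; ring
  have g2 : gq α β w ![1, t] 2 = (α 1 + 2 * α 2 * t) ^ 2 + 2 * (3 * w) * (α 2 * w + β 2 + 3 * β 3 * t)
      - 4 * (cw α w ![1, t] * α 2) := by
    simp only [gq, Matrix.cons_val_zero, Matrix.cons_val_one, Matrix.cons_val]; ring
  have g3 : gq α β w ![1, t] 3 = 2 * (3 * w) * (α 1 + 2 * α 2 * t) - 4 * c1 α β w ![1, t] := by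
    simp only [gq, Matrix.cons_val_zero, Matrix.cons_val_one, Matrix.cons_val]; ring
  have g4 : gq α β w ![1, t] 4 = (3 * w) ^ 2 - 4 * cw α w ![1, t] := by
    simp only [gq, Matrix.cons_val]
  rw [g0, g1, g2, g3] at hv
  rw [g1, g2, g3, g4] at hu
  set W := cw α w ![1, t] with hW
  set T := c1 α β w ![1, t] with hT
  set A := α 1 + 2 * α 2 * t with hA
  set B := α 2 * w + β 2 + 3 * β 3 * t with hB
  -- u- and v-derivatives of the quartic
  have hqu : 2 * (3 * w * u ^ 2 + A * (u * v) + B * v ^ 2) * (6 * w * u + A * v) -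
      4 * W * (u ^ 3 + α 2 * (u * v ^ 2) + β 3 * v ^ 3) -
      4 * (W * u + T * v) * (3 * u ^ 2 + α 2 * v ^ 2) = 0 := by
    linear_combination hu
  have hqv : 2 * (3 * w * u ^ 2 + A * (u * v) + B * v ^ 2) * (A * u + 2 * B * v) -
      4 * T * (u ^ 3 + α 2 * (u * v ^ 2) + β 3 * v ^ 3) -
      4 * (W * u + T * v) * (2 * α 2 * (u * v) + 3 * β 3 * v ^ 2) = 0 := by
    linear_combination hv
  have hq : (3 * w * u ^ 2 + A * (u * v) + B * v ^ 2) ^ 2 -
      4 * (W * u + T * v) * (u ^ 3 + α 2 * (u * v ^ 2) + β 3 * v ^ 3) = 0 := by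
    have h4 : (4 : E) ≠ 0 := by norm_num
    apply mul_left_cancel₀ h4
    rw [mul_zero]
    linear_combination u * hqu + v * hqv
  by_cases hL : W * u + T * v = 0
  · exfalso
    have hM : 3 * w * u ^ 2 + A * (u * v) + B * v ^ 2 = 0 := by
      rw [hL] at hq
      have : (3 * w * u ^ 2 + A * (u * v) + B * v ^ 2) ^ 2 = 0 := by linear_combination hq
      exact pow_eq_zero_iff (two_ne_zero) |>.mp this
    have hN : u ^ 3 + α 2 * (u * v ^ 2) + β 3 * v ^ 3 = 0 := by
      rw [hM, hL] at hqu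
      have : (-4 * W) * (u ^ 3 + α 2 * (u * v ^ 2) + β 3 * v ^ 3) = 0 := by linear_combination hqu
      rcases mul_eq_zero.mp this with h | h
      · exfalso
        rcases mul_eq_zero.mp h with h | h
        · norm_num at h
        · exact hw h
      · exact h
    have hv0 : v ≠ 0 := by
      intro h
      rw [h, mul_zero, add_zero] at hL
      rcases mul_eq_zero.mp hL with h1 | h1
      · exact hw h1
      · rcases huv with h2 | h2
        · exact h2 h1
        · exact h2 h
    obtain ⟨x, hx⟩ := hl (w - t * (u / v)) (u / v)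
    apply hx
    obtain ⟨μ, hμ⟩ : ∃ μ : E, x 1 = x 0 * t + μ * v := ⟨(x 1 - x 0 * t) / v, by field_simp; ring⟩
    have e1 : (w - t * (u / v)) * x 0 + u / v * x 1 = x 0 * w + μ * u := by
      rw [hμ]; field_simp; ring
    rw [e1]
    simp only [cub, q2, q3]
    rw [hμ]
    have e2 : (x 0 * w + μ * u) ^ 3 + (α 0 * x 0 ^ 2 + α 1 * (x 0 * (x 0 * t + μ * v)) +
        α 2 * (x 0 * t + μ * v) ^ 2) * (x 0 * w + μ * u) + (β 0 * x 0 ^ 3 +
        β 1 * (x 0 ^ 2 * (x 0 * t + μ * v)) + β 2 * (x 0 * (x 0 * t + μ * v) ^ 2) +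
        β 3 * (x 0 * t + μ * v) ^ 3) = x 0 ^ 3 * (w ^ 3 + (α 0 + α 1 * t + α 2 * t ^ 2) * w +
        (β 0 + β 1 * t + β 2 * t ^ 2 + β 3 * t ^ 3)) + x 0 ^ 2 * μ * (W * u + T * v) +
        x 0 * μ ^ 2 * (3 * w * u ^ 2 + A * (u * v) + B * v ^ 2) +
        μ ^ 3 * (u ^ 3 + α 2 * (u * v ^ 2) + β 3 * v ^ 3) := by
      rw [hA, hB, eW, eT]; ring
    rw [e2, hF, hL, hM, hN]; ring
  · set lam := -(3 * w * u ^ 2 + A * (u * v) + B * v ^ 2) / (2 * (W * u + T * v)) with hlam
    have h2L : 2 * (W * u + T * v) ≠ 0 := mul_ne_zero two_ne_zero hL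
    have hM : 3 * w * u ^ 2 + A * (u * v) + B * v ^ 2 = -2 * lam * (W * u + T * v) := by
      have h3 : lam * (2 * (W * u + T * v)) = -(3 * w * u ^ 2 + A * (u * v) + B * v ^ 2) := by
        rw [hlam]; exact div_mul_cancel₀ _ h2L
      linear_combination h3
    have hN : u ^ 3 + α 2 * (u * v ^ 2) + β 3 * v ^ 3 = lam ^ 2 * (W * u + T * v) := by
      have h4 : 4 * (W * u + T * v) ≠ 0 := mul_ne_zero (by norm_num) hL
      apply mul_left_cancel₀ h4
      rw [hM] at hq
      linear_combination -hq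
    have hGu : lam ^ 2 * W + lam * (6 * w * u + A * v) + (3 * u ^ 2 + α 2 * v ^ 2) = 0 := by
      have h4 : -4 * (W * u + T * v) ≠ 0 := mul_ne_zero (by norm_num) hL
      apply mul_left_cancel₀ h4
      rw [hM, hN] at hqu
      linear_combination hqu
    have hGv : lam ^ 2 * T + lam * (A * u + 2 * B * v) + (2 * α 2 * (u * v) + 3 * β 3 * v ^ 2) = 0 := by
      have h4 : -4 * (W * u + T * v) ≠ 0 := mul_ne_zero (by norm_num) hL
      apply mul_left_cancel₀ h4
      rw [hM, hN] at hqv
      linear_combination hqv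
    have kw : cw α (lam * w + u) ![lam, lam * t + v] = 0 := by
      simp only [cw, q2, Matrix.cons_val_zero, Matrix.cons_val_one]
      rw [eW, hA] at hGu
      linear_combination hGu
    have k1 : c1 α β (lam * w + u) ![lam, lam * t + v] = 0 := by
      simp only [c1, Matrix.cons_val_zero, Matrix.cons_val_one]
      rw [eT, hA, hB] at hGv
      linear_combination hGv
    have kc : cub α β (lam * w + u) ![lam, lam * t + v] = 0 := by
      simp only [cub, q2, q3, Matrix.cons_val_zero, Matrix.cons_val_one]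
      have e2 : (lam * w + u) ^ 3 + (α 0 * lam ^ 2 + α 1 * (lam * (lam * t + v)) +
          α 2 * (lam * t + v) ^ 2) * (lam * w + u) + (β 0 * lam ^ 3 +
          β 1 * (lam ^ 2 * (lam * t + v)) + β 2 * (lam * (lam * t + v) ^ 2) +
          β 3 * (lam * t + v) ^ 3) = lam ^ 3 * (w ^ 3 + (α 0 + α 1 * t + α 2 * t ^ 2) * w +
          (β 0 + β 1 * t + β 2 * t ^ 2 + β 3 * t ^ 3)) + lam ^ 2 * (W * u + T * v) +
          lam * (3 * w * u ^ 2 + A * (u * v) + B * v ^ 2) +
          (u ^ 3 + α 2 * (u * v ^ 2) + β 3 * v ^ 3) := by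
        rw [hA, hB, eW, eT]; ring
      rw [e2, hF, hM, hN]; ring
    have hGl : 2 * lam * (W * u + T * v) + (3 * w * u ^ 2 + A * (u * v) + B * v ^ 2) = 0 := by
      rw [hM]; ring
    have k0 : c0 α β (lam * w + u) ![lam, lam * t + v] = 0 := by
      have e : 3 * lam ^ 2 * (w ^ 3 + (α 0 + α 1 * t + α 2 * t ^ 2) * w +
          (β 0 + β 1 * t + β 2 * t ^ 2 + β 3 * t ^ 3)) + 2 * lam * (W * u + T * v) +
          (3 * w * u ^ 2 + A * (u * v) + B * v ^ 2) =
          w * cw α (lam * w + u) ![lam, lam * t + v] + c0 α β (lam * w + u) ![lam, lam * t + v] +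
          t * c1 α β (lam * w + u) ![lam, lam * t + v] := by
        simp only [cw, c0, c1, q2, Matrix.cons_val_zero, Matrix.cons_val_one]
        rw [hA, hB, eW, eT]; ring
      rw [kw, k1, hF] at e
      linear_combination hGl - e
    refine ⟨lam * w + u, ![lam, lam * t + v], ?_, kc, kw, k0, k1⟩
    intro h0
    have h00 : lam = 0 := by
      have := congrFun h0 0
      simpa using this
    have h01 : lam * t + v = 0 := by
      have := congrFun h0 1
      simpa using this
    rw [h00, zero_mul, zero_add] at h01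
    have hu0 : u ≠ 0 := by
      rcases huv with h | h
      · exact h
      · exact absurd h01 h
    have : u ^ 3 = 0 := by
      have := kc
      simp only [cub, q2, q3, Matrix.cons_val_zero, Matrix.cons_val_one] at this
      rw [h00, h01] at this
      linear_combination this
    exact hu0 (pow_eq_zero_iff (three_ne_zero) |>.mp this)

theorem smc : S_SMC := by
  intro K _ _ α β w t hc hw hd hl
  set σ : K →+* AlgebraicClosure K := algebraMap K _ with hσ
  have e1 : cub (fun i => σ (α i)) (fun i => σ (β i)) (σ w) ![1, σ t] = σ (cub α β w ![1, t]) := by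
    simp only [cub, q2, q3, Matrix.cons_val_zero, Matrix.cons_val_one, map_add, map_mul, map_pow,
      map_one]
  have e2 : cw (fun i => σ (α i)) (σ w) ![1, σ t] = σ (cw α w ![1, t]) := by
    simp only [cw, q2, Matrix.cons_val_zero, Matrix.cons_val_one, map_add, map_mul, map_pow,
      map_one, map_ofNat]
  have e3 : dF (gq (fun i => σ (α i)) (fun i => σ (β i)) (σ w) ![1, σ t]) =
      σ (dF (gq α β w ![1, t])) := by
    simp only [dF, dc, dsc, gq, cw, c1, q2, Matrix.cons_val_zero, Matrix.cons_val_one,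
      Matrix.cons_val, map_add, map_mul, map_pow, map_one, map_sub, map_ofNat]
  apply sing_cubic (fun i => σ (α i)) (fun i => σ (β i)) (σ w) (σ t)
  · rw [e1, hc, map_zero]
  · rw [e2]
    intro h
    exact hw ((map_eq_zero σ).mp h)
  · rw [e3, hd, map_zero]
  · exact hl

end Pool.Agent.H26.ZK
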